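import Pool.Agent.Hhelper49.Srf.Inj
import Pool.Agent.Hhelper49.Srf.Prod

/-!
# Alg1: the exact sequence of the free product `K = ℤ * A`

`0 → ℤ[K] → ℤ[K/A] → ℤ → 0`, the first map sends `1` to `t A - A`.
-/

set_option linter.unusedSectionVars false

namespace Pool.Agent.Hhelper49.Qiv

open Pool.Agent.Hhelper49.Srr Pool.Agent.Hhelper49.Srf

/-- the free product `ℤ * A` -/
abbrev KK (A : Type) [Group A] : Type := Monoid.Coprod (Multiplicative ℤ) A

/-- the generator of the infinite cyclic factor -/
def tt (A : Type) [Group A] : KK A := Monoid.Coprod.inl (Multiplicative.ofAdd 1)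

section
variable {A : Type} [Group A] {M : Type} [AddCommGroup M] [Module (MonoidAlgebra ℤ (KK A)) M]

/-- the affine permutation `v ↦ e + t v` -/
noncomputable def affT (e : M) : Equiv.Perm M where
  toFun v := e + act (tt A) v
  invFun w := act (tt A)⁻¹ (w - e)
  left_inv v := by
    change act (tt A)⁻¹ (e + act (tt A) v - e) = v
    rw [add_sub_cancel_left, act_inv_act]
  right_inv w := by
    change e + act (tt A) (act (tt A)⁻¹ (w - e)) = w
    rw [act_act_inv, add_sub_cancel]

variable (A M) in
/-- the linear action of `A` -/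
noncomputable def affA : A →* Equiv.Perm M where
  toFun a :=
    { toFun := fun v => act (Monoid.Coprod.inr a : KK A) v
      invFun := fun v => act (Monoid.Coprod.inr a : KK A)⁻¹ v
      left_inv := fun v => act_inv_act _ v
      right_inv := fun v => act_act_inv _ v }
  map_one' := by
    ext v
    change act (Monoid.Coprod.inr (1 : A) : KK A) v = v
    rw [map_one, act_one]
  map_mul' a b := by
    ext v
    change act (Monoid.Coprod.inr (a * b) : KK A) v =
      act (Monoid.Coprod.inr a : KK A) (act (Monoid.Coprod.inr b : KK A) v)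
    rw [map_mul, act_mul]

/-- the action of `K` by affine permutations -/
noncomputable def affHom (e : M) : KK A →* Equiv.Perm M :=
  Monoid.Coprod.lift (zpowersHom (Equiv.Perm M) (affT (A := A) e)) (affA A M)

/-- the subgroup on which the linear part is the given action -/
noncomputable def affSub (e : M) : Subgroup (KK A) where
  carrier := {k : KK A | ∀ v : M, affHom (A := A) e k v = affHom (A := A) e k 0 + act k v}
  one_mem' := by
    intro v
    rw [map_one, Equiv.Perm.one_apply, Equiv.Perm.one_apply, act_one, zero_add]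
  mul_mem' := by
    intro a b ha hb v
    rw [map_mul, Equiv.Perm.mul_apply, Equiv.Perm.mul_apply, ha (affHom e b v),
      ha (affHom e b 0), hb v, act_mul]
    have h3 : act a (affHom e b 0 + act b v) = act a (affHom e b 0) + act a (act b v) :=
      smul_add _ _ _
    rw [h3, add_assoc]
  inv_mem' := by
    intro a ha v
    have hx : ∀ v : M, affHom e a v = affHom e a 0 + act a v := ha
    rw [map_inv, Equiv.Perm.inv_def, Equiv.symm_apply_eq, hx]
    have h2 : affHom e a ((Equiv.symm (affHom e a)) 0) = 0 := Equiv.apply_symm_apply _ _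
    rw [hx] at h2
    have h3 : ∀ w w' : M, act a (w + w') = act a w + act a w' := fun w w' => smul_add _ _ _
    rw [h3, ← add_assoc, h2, act_act_inv, zero_add]

theorem affHom_t (e v : M) : affHom e (tt A) v = e + act (tt A) v := by
  rw [affHom, tt, Monoid.Coprod.lift_apply_inl, zpowersHom_apply, toAdd_ofAdd, zpow_one]
  rfl

theorem affHom_inr (e v : M) (a : A) :
    affHom e (Monoid.Coprod.inr a) v = act (Monoid.Coprod.inr a : KK A) v := by
  rw [affHom, Monoid.Coprod.lift_apply_inr]
  rfl

theorem inl_eq_zpow (z : Multiplicative ℤ) : (Monoid.Coprod.inl z : KK A) = tt A ^ (z.toAdd : ℤ) := by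
  rw [tt, ← map_zpow, ← ofAdd_zsmul, smul_eq_mul, mul_one, ofAdd_toAdd]

theorem affSub_top (e : M) : affSub (A := A) e = ⊤ := by
  have hz : ∀ g : KK A, act g (0 : M) = 0 := fun g => smul_zero _
  rw [eq_top_iff]
  intro k hk
  clear hk
  induction k using Monoid.Coprod.induction_on with
  | inl z =>
    rw [inl_eq_zpow]
    apply Subgroup.zpow_mem
    intro v
    rw [affHom_t, affHom_t, hz, add_zero]
  | inr a =>
    intro v
    rw [affHom_inr, affHom_inr, hz, zero_add]
  | mul a b ha hb => exact Subgroup.mul_mem _ ha hb

theorem affHom_apply (e : M) (k : KK A) (v : M) : affHom e k v = affHom e k 0 + act k v := by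
  have h : k ∈ affSub (A := A) e := by
    rw [affSub_top]
    exact Subgroup.mem_top k
  exact h v

/-- the crossed homomorphism with `t ↦ e`, `a ↦ 0` -/
noncomputable def crs (e : M) (k : KK A) : M := affHom e k 0

theorem crs_one (e : M) : crs (A := A) e 1 = 0 := by
  rw [crs, map_one, Equiv.Perm.one_apply]

theorem crs_mul (e : M) (a b : KK A) : crs e (a * b) = crs e a + act a (crs e b) := by
  rw [crs, map_mul, Equiv.Perm.mul_apply, affHom_apply]
  rfl

theorem crs_t (e : M) : crs e (tt A) = e := by
  rw [crs, affHom_t, act, smul_zero, add_zero]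

theorem crs_inr (e : M) (a : A) : crs e (Monoid.Coprod.inr a) = 0 := by
  rw [crs, affHom_inr, act, smul_zero]

theorem crs_inv (e : M) (a : KK A) : crs e a⁻¹ = -act a⁻¹ (crs e a) := by
  have h := crs_mul e a⁻¹ a
  rw [inv_mul_cancel, crs_one] at h
  exact eq_neg_of_add_eq_zero_left h.symm

end

section
variable (A : Type) [Group A]

/-- the set `K / A` -/
abbrev KA : Type := KK A ⧸ (Monoid.Coprod.inr : A →* KK A).range

/-- the crossed homomorphism on cosets -/
noncomputable def crsQ : KA A → MonoidAlgebra ℤ (KK A) :=
  Quotient.lift (fun k => crs (A := A) (1 : MonoidAlgebra ℤ (KK A)) k) (by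
    intro a b hab
    have h1 : a⁻¹ * b ∈ (Monoid.Coprod.inr : A →* KK A).range := QuotientGroup.leftRel_apply.1 hab
    obtain ⟨c, hc⟩ := h1
    have h2 : b = a * Monoid.Coprod.inr c := by
      rw [hc, mul_inv_cancel_left]
    rw [h2, crs_mul, crs_inr, act, smul_zero, add_zero])

theorem crsQ_mk (k : KK A) : crsQ A (k : KA A) = crs (A := A) (1 : MonoidAlgebra ℤ (KK A)) k := rfl

/-- additive extension to the permutation module -/
noncomputable def crsE : PermF (KK A) (KA A) →+ MonoidAlgebra ℤ (KK A) :=
  Finsupp.liftAddHom (fun x => (zmultiplesHom _) (crsQ A x))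

theorem crsE_single (x : KA A) (n : ℤ) :
    crsE A (PermF.single (KK A) (KA A) x n) = n • crsQ A x := by
  change (Finsupp.liftAddHom (fun x => (zmultiplesHom _) (crsQ A x))) (Finsupp.single x n) = _
  rw [Finsupp.liftAddHom_apply_single, zmultiplesHom_apply]

/-- the augmentation -/
noncomputable def augP : PermF (KK A) (KA A) →+ ℤ :=
  Finsupp.liftAddHom (fun _ => AddMonoidHom.id ℤ)

theorem augP_single (x : KA A) (n : ℤ) : augP A (PermF.single (KK A) (KA A) x n) = n := by
  change (Finsupp.liftAddHom (fun _ => AddMonoidHom.id ℤ)) (Finsupp.single x n) = _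
  rw [Finsupp.liftAddHom_apply_single]
  rfl

theorem augP_act (g : KK A) (y : PermF (KK A) (KA A)) : augP A (act g y) = augP A y := by
  induction y using PermF.induction with
  | h0 => rw [act, smul_zero]
  | hadd a b ha hb => rw [act, smul_add, map_add, map_add]; exact congrArg₂ _ ha hb
  | hs x n => rw [PermF.act_single, augP_single, augP_single]

theorem single_one_smul (x : KA A) (n : ℤ) :
    PermF.single (KK A) (KA A) x n = n • PermF.single (KK A) (KA A) x 1 := by
  have h : (Finsupp.single x n : KA A →₀ ℤ) = n • Finsupp.single x 1 := by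
    rw [Finsupp.smul_single, smul_eq_mul, mul_one]
  exact h

/-- the exact sequence -/
theorem coprod_exact :
    ∃ (f : MonoidAlgebra ℤ (KK A) →ₗ[MonoidAlgebra ℤ (KK A)] PermF (KK A) (KA A))
      (g : PermF (KK A) (KA A) →ₗ[MonoidAlgebra ℤ (KK A)] Triv (KK A)),
      Function.Injective f ∧ Function.Surjective g ∧ LinearMap.range f = LinearMap.ker g := by
  let R := MonoidAlgebra ℤ (KK A)
  let b : PermF (KK A) (KA A) := PermF.single (KK A) (KA A) ((1 : KK A) : KA A) 1
  let f : R →ₗ[R] PermF (KK A) (KA A) := LinearMap.toSpanSingleton R _ (act (tt A) b - b)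
  have hf : ∀ c, f c = c • (act (tt A) b - b) := fun c => rfl
  let ε : PermF (KK A) (KA A) →+ Triv (KK A) := augP A
  let g : PermF (KK A) (KA A) →ₗ[R] Triv (KK A) := mkLin ε (by
    intro a y
    rw [act_triv]
    exact augP_act A a y)
  have hg : ∀ y, g y = 0 ↔ augP A y = 0 := fun y => Iff.rfl
  have hfs : ∀ (k : KK A) (n : ℤ), f (MonoidAlgebra.single k n) =
      n • (act (k * tt A) b - act k b) := by
    intro k n
    have h1 : act k (act (tt A) b - b) = act k (act (tt A) b) - act k b := smul_sub _ _ _
    rw [hf, single_smul, h1, ← act_mul]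
  have hb : ∀ k : KK A, act k b = PermF.single (KK A) (KA A) (k : KA A) 1 := by
    intro k
    change act k (PermF.single (KK A) (KA A) ((1 : KK A) : KA A) 1) = _
    rw [PermF.act_single]
    congr 1
    change ((k * 1 : KK A) : KA A) = (k : KA A)
    rw [mul_one]
  have hE : ∀ k : KK A, crsE A (act k b) = crs (A := A) (1 : R) k := by
    intro k
    rw [hb, crsE_single, one_smul, crsQ_mk]
  have hact1 : ∀ k : KK A, act k (1 : R) = MonoidAlgebra.single k 1 := by
    intro k
    rw [act, smul_eq_mul, mul_one, MonoidAlgebra.of_apply]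
  have hDf : ∀ c, crsE A (f c) = c := by
    intro c
    induction c using MonoidAlgebra.induction_linear with
    | zero => rw [map_zero, map_zero]
    | add x y hx hy => rw [map_add, map_add, hx, hy]
    | single k n =>
      rw [hfs, map_zsmul, map_sub, hE, hE, crs_mul, crs_t, add_sub_cancel_left, hact1,
        MonoidAlgebra.smul_single, smul_eq_mul, mul_one]
  have hfD : ∀ k : KK A, f (crs (A := A) (1 : R) k) = act k b - b := by
    intro k
    have hsub : ∀ k ∈ Subgroup.closure (Set.range (Monoid.Coprod.inr : A → KK A) ∪ {tt A}),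
        f (crs (A := A) (1 : R) k) = act k b - b := by
      intro k hk
      induction hk using Subgroup.closure_induction with
      | mem x hx =>
        rcases hx with ⟨a, rfl⟩ | hx
        · rw [crs_inr, map_zero, hb]
          have h1 : ((Monoid.Coprod.inr a : KK A) : KA A) = ((1 : KK A) : KA A) := by
            rw [QuotientGroup.eq]
            exact ⟨a⁻¹, by rw [map_inv, mul_one]⟩
          rw [h1]
          exact (sub_self _).symm
        · rw [Set.mem_singleton_iff] at hx
          rw [hx, crs_t, hf, one_smul]
      | one => rw [crs_one, map_zero, act_one, sub_self]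
      | mul x y _ _ hx hy =>
        have h1 : act x (act y b - b) = act x (act y b) - act x b := smul_sub _ _ _
        rw [crs_mul, map_add, lin_act, hx, hy, h1, ← act_mul]
        abel
      | inv x _ hx =>
        rw [crs_inv, map_neg, lin_act, hx]
        have h1 : act x⁻¹ (act x b - b) = act x⁻¹ (act x b) - act x⁻¹ b := smul_sub _ _ _
        rw [h1, act_inv_act, neg_sub]
    apply hsub
    induction k using Monoid.Coprod.induction_on with
    | inl z =>
      rw [inl_eq_zpow]
      have h1 : tt A ∈ Subgroup.closure (Set.range (Monoid.Coprod.inr : A → KK A) ∪ {tt A}) :=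
        Subgroup.subset_closure (Or.inr (Set.mem_singleton _))
      exact Subgroup.zpow_mem _ h1 _
    | inr a => exact Subgroup.subset_closure (Or.inl ⟨a, rfl⟩)
    | mul a b ha hb => exact Subgroup.mul_mem _ ha hb
  have hfD' : ∀ y, f (crsE A y) = y - augP A y • b := by
    intro y
    induction y using PermF.induction with
    | h0 => rw [map_zero, map_zero, map_zero, zero_smul, sub_zero]
    | hadd x y hx hy =>
      rw [map_add, map_add, hx, hy, map_add, add_smul]
      abel
    | hs x n =>
      obtain ⟨k, rfl⟩ := QuotientGroup.mk_surjective x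
      rw [crsE_single, map_zsmul, crsQ_mk, hfD, augP_single, smul_sub, hb]
      rw [← single_one_smul]
  refine ⟨f, g, Function.LeftInverse.injective hDf, ?_, ?_⟩
  · intro m
    exact ⟨PermF.single (KK A) (KA A) ((1 : KK A) : KA A) (m : ℤ), augP_single A _ _⟩
  · apply le_antisymm
    · rintro _ ⟨c, rfl⟩
      rw [LinearMap.mem_ker, hg]
      induction c using MonoidAlgebra.induction_linear with
      | zero => rw [map_zero, map_zero]
      | add x y hx hy => rw [map_add, map_add, hx, hy, add_zero]
      | single k n => rw [hfs, map_zsmul, map_sub, augP_act, augP_act, sub_self, smul_zero]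
    · intro y hy
      rw [LinearMap.mem_ker, hg] at hy
      refine ⟨crsE A y, ?_⟩
      rw [hfD', hy, zero_smul, sub_zero]

end

end Pool.Agent.Hhelper49.Qiv
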