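import Pool.Agent.Hhelper49.Srf.Inj
import Pool.Agent.Hhelper49.Srf.Prod

/-!
# Alg2: crossing with a group, relations between classes
-/

set_option linter.unusedSectionVars false

namespace Pool.Agent.Hhelper49.Qiv

open Pool.Agent.Hhelper49.Srr Pool.Agent.Hhelper49.Srf

section
variable (G : Type) [Group G] {H K : Type} [Group H] [Group K]

/-- a `ℤ[K]`-module as a `ℤ[G × K]`-module -/
abbrev Cr (K : Type) [Group K] (M : Type) : Type := Pull (MonoidHom.snd G K) M

/-- `id × κ` -/
abbrev crHom (κ : H →* K) : G × H →* G × K := (MonoidHom.id G).prodMap κ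

theorem crHom_inj {κ : H →* K} (hκ : Function.Injective κ) : Function.Injective (crHom G κ) := by
  rintro ⟨a, b⟩ ⟨a', b'⟩ h
  have h1 : a = a' := congrArg Prod.fst h
  have h2 : κ b = κ b' := congrArg Prod.snd h
  rw [h1, hκ h2]

theorem crHom_range {κ : H →* K} (g : G × K) : g ∈ (crHom G κ).range ↔ g.2 ∈ κ.range := by
  constructor
  · rintro ⟨⟨a, b⟩, rfl⟩
    exact ⟨b, rfl⟩
  · rintro ⟨b, hb⟩
    exact ⟨(g.1, b), Prod.ext rfl hb⟩

theorem cr_act {M : Type} [AddCommGroup M] [Module (MonoidAlgebra ℤ K) M] (g : G × K) (m : M) :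
    act g (Pull.mk (MonoidHom.snd G K) m : Cr G K M) = Pull.mk (MonoidHom.snd G K) (act g.2 m) :=
  Pull.act_apply (κ := MonoidHom.snd G K) g (Pull.mk (MonoidHom.snd G K) m)

/-- crossing of induced modules -/
theorem ind_cross {κ : H →* K} {M N : Type} [AddCommGroup M] [Module (MonoidAlgebra ℤ H) M]
    [AddCommGroup N] [Module (MonoidAlgebra ℤ K) N] (h : Induced κ M N) :
    Induced (crHom G κ) (Cr G H M) (Cr G K N) := by
  obtain ⟨i, π, h1, h2, h3, h4⟩ := h
  let i' : Cr G H M →+ Cr G K N := (i : M →+ N)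
  let π' : Cr G K N →+ Cr G H M := (π : N →+ M)
  refine ⟨i', π', ?_, ?_, ?_, ?_⟩
  · intro x m
    have e1 : (act x m : Cr G H M) = Pull.mk (MonoidHom.snd G H) (act x.2 m.un) := cr_act G x m.un
    have e2 : act (crHom G κ x) (i' m) =
        Pull.mk (MonoidHom.snd G K) (act (κ x.2) (i m.un)) := cr_act G (crHom G κ x) (i m.un)
    rw [e1, e2]
    exact h1 x.2 m.un
  · intro n
    have key : ∀ x : N, x ∈ AddSubgroup.closure {x : N | ∃ (g : K) (m : M), x = act g (i m)} →
        (Pull.mk (MonoidHom.snd G K) x : Cr G K N) ∈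
          AddSubgroup.closure {x : Cr G K N | ∃ (g : G × K) (m : Cr G H M), x = act g (i' m)} := by
      intro x hx
      induction hx using AddSubgroup.closure_induction with
      | mem x hx =>
        obtain ⟨g, m, rfl⟩ := hx
        apply AddSubgroup.subset_closure
        exact ⟨((1 : G), g), Pull.mk (MonoidHom.snd G H) m, (cr_act G ((1 : G), g) (i m)).symm⟩
      | zero => exact AddSubgroup.zero_mem _
      | add x y _ _ hx hy => exact AddSubgroup.add_mem _ hx hy
      | neg x _ hx => exact AddSubgroup.neg_mem _ hx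
    exact key n.un (h2 n.un)
  · intro x m
    have e1 : (act x m : Cr G H M) = Pull.mk (MonoidHom.snd G H) (act x.2 m.un) := cr_act G x m.un
    have e2 : act (crHom G κ x) (i' m) =
        Pull.mk (MonoidHom.snd G K) (act (κ x.2) (i m.un)) := cr_act G (crHom G κ x) (i m.un)
    rw [e1, e2]
    exact h3 x.2 m.un
  · intro g m hg
    have e2 : act g (i' m) = Pull.mk (MonoidHom.snd G K) (act g.2 (i m.un)) := cr_act G g (i m.un)
    rw [e2]
    exact h4 g.2 m.un fun h => hg ((crHom_range G g).2 h)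

variable (K) in
/-- the trivial module -/
noncomputable def crTriv : Cr G K (Triv K) ≃ₗ[MonoidAlgebra ℤ (G × K)] Triv (G × K) :=
  mkEquiv (AddEquiv.refl ℤ : Cr G K (Triv K) ≃+ Triv (G × K)) (by
    intro g m
    have e1 : act g m = Pull.mk (MonoidHom.snd G K) (act g.2 m.un) := cr_act G g m.un
    have e2 : act g.2 m.un = m.un := act_triv _ _ _
    rw [e1, e2]
    exact (act_triv _ _ _).symm)

/-- crossing of exact sequences ending in the trivial module -/
theorem cross_exact {M N : Type} [AddCommGroup M] [Module (MonoidAlgebra ℤ K) M]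
    [AddCommGroup N] [Module (MonoidAlgebra ℤ K) N]
    (h : ∃ (f : M →ₗ[MonoidAlgebra ℤ K] N) (g : N →ₗ[MonoidAlgebra ℤ K] Triv K),
      Function.Injective f ∧ Function.Surjective g ∧ LinearMap.range f = LinearMap.ker g) :
    ∃ (f : Cr G K M →ₗ[MonoidAlgebra ℤ (G × K)] Cr G K N)
      (g : Cr G K N →ₗ[MonoidAlgebra ℤ (G × K)] Triv (G × K)),
      Function.Injective f ∧ Function.Surjective g ∧ LinearMap.range f = LinearMap.ker g := by
  obtain ⟨f, g, hf, hg, hfg⟩ := h
  refine ⟨pullLin (MonoidHom.snd G K) f,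
    (crTriv G K).toLinearMap.comp (pullLin (MonoidHom.snd G K) g), hf, ?_, ?_⟩
  · exact (crTriv G K).surjective.comp hg
  · ext x
    have h3 : x.un ∈ LinearMap.range f ↔ x.un ∈ LinearMap.ker g := by rw [hfg]
    exact h3

/-- powers -/
noncomputable def crPi (n : ℕ) (M : Type) [AddCommGroup M] [Module (MonoidAlgebra ℤ K) M] :
    Cr G K (Fin n → M) ≃ₗ[MonoidAlgebra ℤ (G × K)] (Fin n → Cr G K M) :=
  mkEquiv (AddEquiv.refl (Fin n → M) : Cr G K (Fin n → M) ≃+ (Fin n → Cr G K M)) (by
    intro g m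
    funext j
    have e1 : act g m = Pull.mk (MonoidHom.snd G K) (act g.2 m.un) := cr_act G g m.un
    rw [e1]
    exact (cr_act G g (m.un j)).symm)

end

section
variable {R : Type} [Ring R]

/-- a relation between classes -/
theorem rel_of_exact (k : ℕ) {N T : Type} [AddCommGroup N] [Module R N] [AddCommGroup T]
    [Module R T] (f : (Fin (k + 1) → N) →ₗ[R] N) (g : N →ₗ[R] T) (hf : Function.Injective f)
    (hg : Function.Surjective g) (hfg : LinearMap.range f = LinearMap.ker g) (hN : FP R N) :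
    FP R T ∧ FF R (T × (Fin k → N)) := by
  have hNk : FP R (Fin (k + 1) → N) := fp_pi (fun _ : Fin (k + 1) => N) fun _ => hN
  have hT : FP R T := fp_coker f g hf hg hfg hNk hN
  refine ⟨hT, ?_⟩
  obtain ⟨C, i1, i2, h1, h2, h3⟩ := Sim_ext f g hf hg hfg hNk hT
  let e0 : Fin 1 ⊕ Fin k ≃ Fin (k + 1) := Fintype.equivOfCardEq (by
    rw [Fintype.card_sum, Fintype.card_fin, Fintype.card_fin, Fintype.card_fin, add_comm])
  let e1 : (Fin (k + 1) → N) ≃ₗ[R] N × (Fin k → N) :=
    ((LinearEquiv.funCongrLeft R N e0).trans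
      (LinearEquiv.sumArrowLequivProdArrow (Fin 1) (Fin k) R N)).trans
      (LinearEquiv.prodCongr (LinearEquiv.funUnique (Fin 1) R N) (LinearEquiv.refl R _))
  let e2 : (((N × (Fin k → N)) × T) × C) ≃ₗ[R] ((N × C) × (T × (Fin k → N))) :=
    { toFun := fun p => ((p.1.1.1, p.2), (p.1.2, p.1.1.2))
      map_add' := fun _ _ => rfl
      map_smul' := fun _ _ => rfl
      invFun := fun p => (((p.1.1, p.2.2), p.2.1), p.1.2)
      left_inv := fun _ => rfl
      right_inv := fun _ => rfl }
  let e3 : (((Fin (k + 1) → N) × T) × C) ≃ₗ[R] (((N × (Fin k → N)) × T) × C) :=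
    LinearEquiv.prodCongr (LinearEquiv.prodCongr e1 (LinearEquiv.refl R T)) (LinearEquiv.refl R C)
  exact ff_right (ff_iso (e3.trans e2) h3) h2

/-- another relation -/
theorem rel_of_exact2 {N M T : Type} [AddCommGroup N] [Module R N] [AddCommGroup M]
    [Module R M] [AddCommGroup T] [Module R T] (f : N →ₗ[R] M) (g : M →ₗ[R] T)
    (hf : Function.Injective f) (hg : Function.Surjective g)
    (hfg : LinearMap.range f = LinearMap.ker g) (hN : FP R N) (hM : FP R M) (X Y : Type)
    [AddCommGroup X] [Module R X] [AddCommGroup Y] [Module R Y]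
    (h1 : FF R (M × (X × Y))) (h2 : FF R (X × N)) : FP R T ∧ FF R (T × Y) := by
  have hT : FP R T := fp_coker f g hf hg hfg hN hM
  refine ⟨hT, ?_⟩
  obtain ⟨C, i1, i2, h3, h4, h5⟩ := Sim_ext f g hf hg hfg hN hT
  let e : (((N × T) × C) × (M × (X × Y))) ≃ₗ[R] (((M × C) × (X × N)) × (T × Y)) :=
    { toFun := fun p => (((p.2.1, p.1.2), (p.2.2.1, p.1.1.1)), (p.1.1.2, p.2.2.2))
      map_add' := fun _ _ => rfl
      map_smul' := fun _ _ => rfl
      invFun := fun p => (((p.1.2.2, p.2.1), p.1.1.2), (p.1.1.1, (p.1.2.1, p.2.2)))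
      left_inv := fun _ => rfl
      right_inv := fun _ => rfl }
  exact ff_right (ff_iso e (ff_prod h5 h1)) (ff_prod h4 h2)

end

section
variable {P F K : Type} [Group P] [Group F] [Group K] {κ : P × F →* K}

/-- the group ring -/
theorem ind_alg {H Γ : Type} [Group H] [Group Γ] {κ : H →* Γ} (hκ : Function.Injective κ) :
    Induced κ (MonoidAlgebra ℤ H) (MonoidAlgebra ℤ Γ) := by
  obtain ⟨π, hπ⟩ := isInd_free κ hκ 1
  exact ind_iso _ _ _ _ ⟨_, π, hπ⟩ (LinearEquiv.funUnique (Fin 1) _ _)
    (LinearEquiv.funUnique (Fin 1) _ _)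

/-- the cosets of the subgroup `P` of `K` -/
abbrev KP (κ : P × F →* K) : Type := K ⧸ (κ.comp (MonoidHom.inl P F)).range

/-- the embedding of `F` -/
def jF (κ : P × F →* K) (x : F) : KP κ := ((κ (1, x) : K) : KP κ)

theorem jF_inj (hκ : Function.Injective κ) : Function.Injective (jF κ) := by
  intro x y h
  have h1 : (κ (1, x))⁻¹ * κ (1, y) ∈ (κ.comp (MonoidHom.inl P F)).range := QuotientGroup.eq.1 h
  obtain ⟨p, hp⟩ := h1
  rw [← map_inv, ← map_mul] at hp
  have h2 := hκ hp
  have h3 : (1 : F) = x⁻¹ * y := congrArg Prod.snd h2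
  rw [eq_comm, inv_mul_eq_one] at h3
  exact h3

theorem smul_jF (p : P) (x y : F) : κ (p, y) • jF κ x = jF κ (y * x) := by
  change ((κ (p, y) * κ (1, x) : K) : KP κ) = ((κ (1, y * x) : K) : KP κ)
  rw [← map_mul, QuotientGroup.eq]
  refine ⟨p⁻¹, ?_⟩
  rw [← map_inv, ← map_mul]
  change κ _ = κ _
  congr 1
  exact Prod.ext (by simp) (by simp)

theorem ind_PNperm (hκ : Function.Injective κ) :
    Induced κ (PN P F) (PermF K (KP κ)) := by
  classical
  let i : PN P F →+ PermF K (KP κ) :=
    (Finsupp.mapDomain.addMonoidHom (M := ℤ) (jF κ)).comp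
      (MonoidAlgebra.coeffAddEquiv (R := ℤ) (M := F)).toAddMonoidHom
  let π : PermF K (KP κ) →+ PN P F :=
    (MonoidAlgebra.coeffAddEquiv (R := ℤ) (M := F)).symm.toAddMonoidHom.comp
      (Finsupp.comapDomain.addMonoidHom (M := ℤ) (jF_inj hκ))
  have hi : ∀ (x : F) (r : ℤ), i (Pull.mk (MonoidHom.snd P F) (MonoidAlgebra.single x r)) =
      PermF.single K (KP κ) (jF κ x) r := by
    intro x r
    change Finsupp.mapDomain (jF κ) (Finsupp.single x r) = _
    rw [Finsupp.mapDomain_single]
    rfl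
  have hπi : ∀ m, π (i m) = m := by
    intro m
    change (MonoidAlgebra.coeffAddEquiv (R := ℤ) (M := F)).symm
      (Finsupp.comapDomain (jF κ) (Finsupp.mapDomain (jF κ)
        ((MonoidAlgebra.coeffAddEquiv (R := ℤ) (M := F)) m)) _) = m
    rw [Finsupp.comapDomain_mapDomain (jF κ) (jF_inj hκ), AddEquiv.symm_apply_apply]
  have hequi : ∀ (h : P × F) (m : PN P F), i (act h m) = act (κ h) (i m) := by
    intro h m
    induction m using MonoidAlgebra.induction_linear with
    | zero =>
      have e : act h (0 : PN P F) = 0 := smul_zero _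
      have e' : act (κ h) (i 0) = act (κ h) 0 := by rw [map_zero]
      change i (act h (0 : PN P F)) = act (κ h) (i 0)
      rw [e, e', map_zero]
      exact (smul_zero _).symm
    | add x y hx hy =>
      change i (act h (Pull.mk (MonoidHom.snd P F) x + Pull.mk (MonoidHom.snd P F) y)) =
        act (κ h) (i (Pull.mk (MonoidHom.snd P F) x + Pull.mk (MonoidHom.snd P F) y))
      have e : act h (Pull.mk (MonoidHom.snd P F) x + Pull.mk (MonoidHom.snd P F) y) =
        act h (Pull.mk (MonoidHom.snd P F) x) + act h (Pull.mk (MonoidHom.snd P F) y) :=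
        smul_add _ _ _
      have e2 : act (κ h) (i (Pull.mk (MonoidHom.snd P F) x) + i (Pull.mk (MonoidHom.snd P F) y)) =
        act (κ h) (i (Pull.mk (MonoidHom.snd P F) x)) +
          act (κ h) (i (Pull.mk (MonoidHom.snd P F) y)) := smul_add _ _ _
      rw [e, map_add, map_add, e2]
      exact congrArg₂ _ hx hy
    | single x r =>
      have e := PN_act_single P F h x r
      change i (act h (Pull.mk (MonoidHom.snd P F) (MonoidAlgebra.single x r))) =
        act (κ h) (i (Pull.mk (MonoidHom.snd P F) (MonoidAlgebra.single x r)))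
      rw [e, hi, hi, PermF.act_single]
      congr 1
      exact (smul_jF h.1 x h.2).symm
  refine ⟨i, π, hequi, ?_, ?_, ?_⟩
  · intro n
    induction n using PermF.induction with
    | h0 => exact AddSubgroup.zero_mem _
    | hadd a b ha hb => exact AddSubgroup.add_mem _ ha hb
    | hs x n =>
      obtain ⟨g, rfl⟩ := QuotientGroup.mk_surjective x
      apply AddSubgroup.subset_closure
      refine ⟨g, Pull.mk (MonoidHom.snd P F) (MonoidAlgebra.single 1 n), ?_⟩
      rw [hi, PermF.act_single]
      congr 1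
      change (g : KP κ) = ((g * κ (1, 1) : K) : KP κ)
      have e : ((1 : P), (1 : F)) = 1 := rfl
      rw [e, map_one, mul_one]
  · intro h m
    rw [← hequi, hπi]
  · intro g m hg
    induction m using MonoidAlgebra.induction_linear with
    | zero =>
      change π (act g (i 0)) = 0
      rw [map_zero]
      have e : act g (0 : PermF K (KP κ)) = 0 := smul_zero _
      rw [e, map_zero]
    | add x y hx hy =>
      change π (act g (i (Pull.mk (MonoidHom.snd P F) x + Pull.mk (MonoidHom.snd P F) y))) = 0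
      have e2 : act g (i (Pull.mk (MonoidHom.snd P F) x) + i (Pull.mk (MonoidHom.snd P F) y)) =
        act g (i (Pull.mk (MonoidHom.snd P F) x)) +
          act g (i (Pull.mk (MonoidHom.snd P F) y)) := smul_add _ _ _
      rw [map_add, e2, map_add]
      have h1 : π (act g (i (Pull.mk (MonoidHom.snd P F) x))) = 0 := hx
      have h2 : π (act g (i (Pull.mk (MonoidHom.snd P F) y))) = 0 := hy
      rw [h1, h2, add_zero]
    | single x r =>
      change π (act g (i (Pull.mk (MonoidHom.snd P F) (MonoidAlgebra.single x r)))) = 0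
      rw [hi, PermF.act_single]
      change (MonoidAlgebra.coeffAddEquiv (R := ℤ) (M := F)).symm
        (Finsupp.comapDomain (jF κ) (Finsupp.single (g • jF κ x) r) _) = 0
      rw [EmbeddingLike.map_eq_zero_iff]
      ext y
      rw [Finsupp.comapDomain_apply, Finsupp.single_apply, if_neg]
      · rfl
      · intro h
        apply hg
        have h1 : ((g * κ (1, x) : K) : KP κ) = ((κ (1, y) : K) : KP κ) := h
        rw [QuotientGroup.eq] at h1
        obtain ⟨p, hp⟩ := h1
        have h2 : g = κ (1, y) * (κ (p, 1))⁻¹ * (κ (1, x))⁻¹ := by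
          have h3 : κ (p, 1) = (g * κ (1, x))⁻¹ * κ (1, y) := hp
          rw [h3]
          group
        rw [h2]
        exact Subgroup.mul_mem _ (Subgroup.mul_mem _ ⟨_, rfl⟩ (Subgroup.inv_mem _ ⟨_, rfl⟩))
          (Subgroup.inv_mem _ ⟨_, rfl⟩)

end

end Pool.Agent.Hhelper49.Qiv
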