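import Pool.Agent.Hhelper49.Qiv.Alg1
import Pool.Agent.Hhelper49.Qiv.Alg2

/-!
# Alg3: the finiteness obstruction of `G × (ℤ * (F_2 × F_n))`
-/

set_option linter.unusedSectionVars false

namespace Pool.Agent.Hhelper49.Qiv

open Pool.Agent.Hhelper49.Srr Pool.Agent.Hhelper49.Srf

/-- splitting off one factor -/
def powSucc (R : Type) [Ring R] (k : ℕ) (N : Type) [AddCommGroup N] [Module R N] :
    (Fin (k + 1) → N) ≃ₗ[R] N × (Fin k → N) :=
  ((LinearEquiv.funCongrLeft R N (finSumFinEquiv.trans (finCongr (add_comm 1 k)))).trans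
      (LinearEquiv.sumArrowLequivProdArrow (Fin 1) (Fin k) R N)).trans
      (LinearEquiv.prodCongr (LinearEquiv.funUnique (Fin 1) R N) (LinearEquiv.refl R _))

section
variable (G : Type) [Group G]

/-- the free group of rank two -/
abbrev F2 : Type := FreeGroup (Fin 2)

/-- `F_2 × F_n` -/
abbrev AA (n : ℕ) : Type := F2 × FreeGroup (Fin n)

/-- `ℤ * (F_2 × F_n)` -/
abbrev KF (n : ℕ) : Type := KK (AA n)

/-- the inclusion of `F_2 × F_n` -/
abbrev kA (n : ℕ) : AA n →* KF n := Monoid.Coprod.inr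

theorem kA_inj (n : ℕ) : Function.Injective (kA n) := Monoid.Coprod.inr_injective

/-- the inclusion of `F_2` -/
abbrev k2 (n : ℕ) : F2 →* KF n := (kA n).comp (MonoidHom.inl F2 (FreeGroup (Fin n)))

theorem k2_inj (n : ℕ) : Function.Injective (k2 n) := by
  intro x y h
  exact congrArg Prod.fst (kA_inj n h)

abbrev RR (n : ℕ) : Type := MonoidAlgebra ℤ (G × KF n)

/-- the module `ℤ[K]` -/
abbrev NN (n : ℕ) : Type := Cr G (KF n) (MonoidAlgebra ℤ (KF n))

/-- the module `ℤ[K / F_2]` -/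
abbrev M1 (n : ℕ) : Type := Cr G (KF n) (PermF (KF n) (KP (kA n)))

/-- the module `ℤ[K / (F_2 × F_n)]` -/
abbrev MA (n : ℕ) : Type := Cr G (KF n) (PermF (KF n) (KA (AA n)))

theorem ind_M1 (n : ℕ) : Induced (crHom G (k2 n)) (Triv (G × F2)) (M1 G n) :=
  ind_iso _ _ _ _ (ind_cross G (ind_perm (k2 n))) (crTriv G F2) (LinearEquiv.refl _ _)

theorem ind_N2 (n : ℕ) : Induced (crHom G (k2 n)) (PN G F2) (NN G n) :=
  ind_cross G (ind_alg (k2_inj n))

theorem ind_MA (n : ℕ) : Induced (crHom G (kA n)) (Triv (G × AA n)) (MA G n) :=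
  ind_iso _ _ _ _ (ind_cross G (ind_perm (kA n))) (crTriv G (AA n)) (LinearEquiv.refl _ _)

/-- the module `ℤ[F_n]` over `ℤ[G × F_2 × F_n]` -/
abbrev N1 (n : ℕ) : Type := Cr G (AA n) (PN F2 (FreeGroup (Fin n)))

theorem ind_N1 (n : ℕ) : Induced (crHom G (kA n)) (N1 G n) (M1 G n) :=
  ind_cross G (ind_PNperm (kA_inj n))

theorem triv2 (hG : TypeFP G) : FP (MonoidAlgebra ℤ (G × F2)) (Triv (G × F2)) ∧
    FF (MonoidAlgebra ℤ (G × F2)) (Triv (G × F2) × PN G F2) := by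
  obtain ⟨f, g, hf, hg, hfg⟩ := PN_exact G 2
  have hinj : Function.Injective (MonoidHom.inl G F2) := fun x y h => congrArg Prod.fst h
  have hN : FP (MonoidAlgebra ℤ (G × F2)) (PN G F2) :=
    ind_fp hinj _ _ (PN_ind G F2) (fp_of_typeFP G hG)
  obtain ⟨h1, h2⟩ := rel_of_exact 1 f g hf hg hfg hN
  refine ⟨h1, ff_iso ?_ h2⟩
  exact LinearEquiv.prodCongr (LinearEquiv.refl _ _) (LinearEquiv.funUnique (Fin 1) _ _)

theorem E1 (n : ℕ) (hG : TypeFP G) : FF (RR G n) (M1 G n × NN G n) :=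
  ind_ff (crHom_inj G (k2_inj n)) _ _ (ind_prod _ _ _ _ (ind_M1 G n) (ind_N2 G n)) (triv2 G hG).2

theorem fp_M1 (n : ℕ) (hG : TypeFP G) : FP (RR G n) (M1 G n) :=
  ind_fp (crHom_inj G (k2_inj n)) _ _ (ind_M1 G n) (triv2 G hG).1

theorem fp_N1 (n : ℕ) (hG : TypeFP G) : FP (MonoidAlgebra ℤ (G × AA n)) (N1 G n) := by
  have h1 : FP (MonoidAlgebra ℤ (G × F2)) (Cr G F2 (Triv F2)) :=
    fp_iso (crTriv G F2).symm (triv2 G hG).1
  have hinj : Function.Injective (MonoidHom.inl F2 (FreeGroup (Fin n))) :=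
    fun x y h => congrArg Prod.fst h
  exact ind_fp (crHom_inj G hinj) _ _ (ind_cross G (PN_ind F2 (FreeGroup (Fin n)))) h1

theorem trivA (k : ℕ) (hG : TypeFP G) :
    FP (MonoidAlgebra ℤ (G × AA (k + 1))) (Triv (G × AA (k + 1))) ∧
    FF (MonoidAlgebra ℤ (G × AA (k + 1)))
      (Triv (G × AA (k + 1)) × (Fin k → N1 G (k + 1))) := by
  obtain ⟨f, g, hf, hg, hfg⟩ := cross_exact G (PN_exact F2 (k + 1))
  refine rel_of_exact k (f.comp (crPi G (k + 1) (PN F2 (FreeGroup (Fin (k + 1))))).symm.toLinearMap)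
    g ?_ hg ?_ (fp_N1 G (k + 1) hG)
  · exact hf.comp (crPi G (k + 1) (PN F2 (FreeGroup (Fin (k + 1))))).symm.injective
  · rw [LinearMap.range_comp, LinearEquiv.range, Submodule.map_top, hfg]

theorem E2 (k : ℕ) (hG : TypeFP G) :
    FF (RR G (k + 1)) (MA G (k + 1) × (Fin k → M1 G (k + 1))) :=
  ind_ff (crHom_inj G (kA_inj (k + 1))) _ _
    (ind_prod _ _ _ _ (ind_MA G (k + 1)) (ind_pi _ _ k (ind_N1 G (k + 1)))) (trivA G k hG).2

theorem fp_MA (k : ℕ) (hG : TypeFP G) : FP (RR G (k + 1)) (MA G (k + 1)) :=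
  ind_fp (crHom_inj G (kA_inj (k + 1))) _ _ (ind_MA G (k + 1)) (trivA G k hG).1

theorem fp_NN (n : ℕ) (hG : TypeFP G) : FP (RR G n) (NN G n) := by
  have hinj : Function.Injective (MonoidHom.inl G (KF n)) := fun x y h => congrArg Prod.fst h
  exact ind_fp hinj _ _ (PN_ind G (KF n)) (fp_of_typeFP G hG)

theorem main_rel (j : ℕ) (hG : TypeFP G) :
    FP (RR G (j + 2)) (Triv (G × KF (j + 2))) ∧
    FF (RR G (j + 2)) (Triv (G × KF (j + 2)) × (Fin j → M1 G (j + 2))) := by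
  obtain ⟨f, g, hf, hg, hfg⟩ := cross_exact G (coprod_exact (AA (j + 2)))
  refine rel_of_exact2 f g hf hg hfg (fp_NN G (j + 2) hG) (fp_MA G (j + 1) hG)
    (M1 G (j + 2)) (Fin j → M1 G (j + 2)) ?_ (E1 G (j + 2) hG)
  exact ff_iso (LinearEquiv.prodCongr (LinearEquiv.refl _ _)
    (powSucc (RR G (j + 2)) j (M1 G (j + 2)))) (E2 G (j + 1) hG)

theorem fp_KF (j : ℕ) (hG : TypeFP G) : TypeFP (G × KF (j + 2)) :=
  typeFP_of_fp _ (main_rel G j hG).1

/-- `G × (ℤ * (F_2 × F_2))` is of type (FF) -/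
theorem ff_KF (hG : TypeFP G) : TypeFF (G × KF 2) := by
  apply typeFF_of_ff
  exact ff_left (main_rel G 0 hG).2 ⟨0, inferInstance, inferInstance⟩

/-- `G × (ℤ * (F_2 × F_3))` has the same finiteness obstruction as `G` -/
theorem freeRes_KF (m : ℕ) (hG : TypeFP G) : FreeRes m (G × KF 3) ↔ FreeRes m G := by
  let R := RR G 3
  have h1 : FF R (Triv (G × KF 3) × M1 G 3) :=
    ff_iso (LinearEquiv.prodCongr (LinearEquiv.refl _ _)
      (LinearEquiv.funUnique (Fin 1) R (M1 G 3))) (main_rel G 1 hG).2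
  have h2 : FF R ((Fin m → Triv (G × KF 3)) × (Fin m → M1 G 3)) :=
    ff_iso (piProdEquiv R m _ _)
      (ff_pi (fun _ : Fin m => Triv (G × KF 3) × M1 G 3) fun _ => h1)
  have h3 : FF R ((Fin m → M1 G 3) × (Fin m → NN G 3)) :=
    ff_iso (piProdEquiv R m _ _)
      (ff_pi (fun _ : Fin m => M1 G 3 × NN G 3) fun _ => E1 G 3 hG)
  have hinj : Function.Injective (MonoidHom.inl G (KF 3)) := fun x y h => congrArg Prod.fst h
  have hi : Induced (MonoidHom.inl G (KF 3)) (Fin m → Triv G) (Fin m → NN G 3) :=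
    ind_pi _ _ m (PN_ind G (KF 3))
  rw [freeRes_iff, freeRes_iff]
  constructor
  · intro h4
    have h5 : FF R (Fin m → M1 G 3) := ff_right h2 h4
    have h6 : FF R (Fin m → NN G 3) := ff_right h3 h5
    exact ind_reduce hinj _ _ (desc_ret (MonoidHom.inl G (KF 3)) (MonoidHom.fst G (KF 3))
      fun _ => rfl) (fp_pi (fun _ : Fin m => Triv G) fun _ => fp_of_typeFP G hG) hi h6
  · intro h4
    have h5 : FF R (Fin m → NN G 3) := ind_ff hinj _ _ hi h4
    exact ff_left h2 (ff_left h3 h5)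

end

end Pool.Agent.Hhelper49.Qiv
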