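import Mathlib

/-!
# Geo1: maps between groups with bounded displacement
-/

namespace Pool.Agent.Hhelper49.Qiv

/-- `f (s g) (f g)⁻¹` takes only finitely many values, for each `s` -/
def Ctrl {G H : Type} [Group G] [Group H] (f : G → H) : Prop :=
  ∀ s : G, (Set.range fun g => f (s * g) * (f g)⁻¹).Finite

/-- bijections which are controlled in both directions, and map `1` to `1` -/
structure CE {G H : Type} [Group G] [Group H] (f : G ≃ H) : Prop where
  one : f 1 = 1
  fw : Ctrl f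
  bw : Ctrl f.symm

section
variable {G H L : Type} [Group G] [Group H] [Group L]

theorem Ctrl.comp {f : G → H} {h : H → L} (hf : Ctrl f) (hh : Ctrl h) : Ctrl (h ∘ f) := by
  intro s
  apply ((hf s).biUnion (t := fun t => Set.range fun x => h (t * x) * (h x)⁻¹)
    fun t _ => hh t).subset
  rintro _ ⟨g, rfl⟩
  refine Set.mem_biUnion (x := f (s * g) * (f g)⁻¹) ⟨g, rfl⟩ ?_
  refine ⟨f g, ?_⟩
  simp only [Function.comp_apply, inv_mul_cancel_right]

theorem Ctrl.id : Ctrl (fun g : G => g) := by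
  intro s
  apply (Set.finite_singleton s).subset
  rintro _ ⟨g, rfl⟩
  simp

/-- the elements for which the condition holds form a subgroup -/
def ctrlSub (f : G → H) : Subgroup G where
  carrier := {s | (Set.range fun g => f (s * g) * (f g)⁻¹).Finite}
  one_mem' := by
    apply (Set.finite_singleton (1 : H)).subset
    rintro _ ⟨g, rfl⟩
    simp
  mul_mem' := by
    intro s t hs ht
    have h1 : (Set.range fun g => f (s * g) * (f g)⁻¹).Finite := hs
    have h2 : (Set.range fun g => f (t * g) * (f g)⁻¹).Finite := ht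
    apply (h1.image2 (fun x y => x * y) h2).subset
    rintro _ ⟨g, rfl⟩
    refine ⟨_, ⟨t * g, rfl⟩, _, ⟨g, rfl⟩, ?_⟩
    simp only [mul_assoc, inv_mul_cancel_left]
  inv_mem' := by
    intro s hs
    have h1 : (Set.range fun g => f (s * g) * (f g)⁻¹).Finite := hs
    apply (h1.image (fun x => x⁻¹)).subset
    rintro _ ⟨g, rfl⟩
    refine ⟨_, ⟨s⁻¹ * g, rfl⟩, ?_⟩
    simp

theorem ctrl_iff (f : G → H) : Ctrl f ↔ ctrlSub f = ⊤ := by
  constructor
  · intro h
    rw [eq_top_iff]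
    intro s _
    exact h s
  · intro h s
    have : s ∈ ctrlSub f := by
      rw [h]
      exact Subgroup.mem_top s
    exact this

theorem CE.refl : CE (Equiv.refl G) := ⟨rfl, Ctrl.id, Ctrl.id⟩

theorem CE.symm {f : G ≃ H} (h : CE f) : CE f.symm :=
  ⟨by rw [Equiv.symm_apply_eq, h.one], h.bw, h.fw⟩

theorem CE.trans {f : G ≃ H} {f' : H ≃ L} (h : CE f) (h' : CE f') : CE (f.trans f') :=
  ⟨by rw [Equiv.trans_apply, h.one, h'.one], h.fw.comp h'.fw, h'.bw.comp h.bw⟩

/-- products -/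
theorem Ctrl.prod {G' H' : Type} [Group G'] [Group H'] {f : G → H} {f' : G' → H'} (hf : Ctrl f)
    (hf' : Ctrl f') : Ctrl (Prod.map f f') := by
  rintro ⟨s, s'⟩
  apply ((hf s).prod (hf' s')).subset
  rintro _ ⟨⟨g, g'⟩, rfl⟩
  exact ⟨⟨g, rfl⟩, ⟨g', rfl⟩⟩

theorem CE.prod {G' H' : Type} [Group G'] [Group H'] {f : G ≃ H} {f' : G' ≃ H'} (h : CE f)
    (h' : CE f') : CE (Equiv.prodCongr f f') :=
  ⟨Prod.ext h.one h'.one, h.fw.prod h'.fw, h.bw.prod h'.bw⟩

/-- group isomorphisms -/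
theorem Ctrl.hom (f : G →* H) : Ctrl f := by
  intro s
  apply (Set.finite_singleton (f s)).subset
  rintro _ ⟨g, rfl⟩
  simp

theorem CE.ofMulEquiv (f : G ≃* H) : CE f.toEquiv :=
  ⟨map_one f, Ctrl.hom f.toMonoidHom, Ctrl.hom f.symm.toMonoidHom⟩

/-- normalisation -/
theorem CE.norm {f : G ≃ H} (h : Ctrl f) (h' : Ctrl f.symm) :
    CE (f.trans (Equiv.mulRight (f 1)⁻¹)) := by
  refine ⟨?_, ?_, ?_⟩
  · simp
  · intro s
    apply (h s).subset
    rintro _ ⟨g, rfl⟩
    refine ⟨g, ?_⟩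
    simp
  · intro s
    apply (h' s).subset
    rintro _ ⟨g, rfl⟩
    refine ⟨g * f 1, ?_⟩
    simp [Equiv.symm_trans_apply, mul_assoc]

end

end Pool.Agent.Hhelper49.Qiv
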