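import Mathlib
import Pool.Agent.Hhelper49.Qiv.Geo1

/-!
# Geo2: the free groups of ranks two and three are bi-Lipschitz equivalent
-/

namespace Pool.Agent.Hhelper49.Qiv

section
variable {G H : Type} [Group G] [Group H]

/-- a subgroup of index two and a two-to-one map -/
theorem glue (θ : H →* G) (a : Bool → G)
    (hψ : Function.Bijective fun p : H × Bool => a p.2 * θ p.1) (h : H × Bool ≃ H) (T : Set H)
    (hT : T.Finite) (hh : ∀ p, h p * p.1⁻¹ ∈ T) : ∃ f : G ≃ H, CE f := by
  let ψ : H × Bool ≃ G := Equiv.ofBijective _ hψ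
  have hψa : ∀ p, ψ p = a p.2 * θ p.1 := fun p => rfl
  have hθ : Function.Injective θ := by
    intro x y hxy
    have h1 : ψ (x, false) = ψ (y, false) := by rw [hψa, hψa, hxy]
    exact congrArg Prod.fst (ψ.injective h1)
  let f0 : G ≃ H := ψ.symm.trans h
  refine ⟨f0.trans (Equiv.mulRight (f0 1)⁻¹), CE.norm ?_ ?_⟩
  · intro s
    have hC : {c : H | ∃ i j : Bool, θ c = (a j)⁻¹ * s * a i}.Finite := by
      have h1 : (Set.range fun p : Bool × Bool => (a p.2)⁻¹ * s * a p.1).Finite := Set.finite_range _
      apply (h1.preimage hθ.injOn).subset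
      rintro c ⟨i, j, hc⟩
      exact ⟨(i, j), hc.symm⟩
    have hfin : (Set.image2 (fun (x : H) (y : H × H) => x * y.1 * y.2⁻¹) T
        ({c : H | ∃ i j : Bool, θ c = (a j)⁻¹ * s * a i} ×ˢ T)).Finite := hT.image2 _ (hC.prod hT)
    apply hfin.subset
    rintro _ ⟨g, rfl⟩
    obtain ⟨⟨x, i⟩, rfl⟩ := ψ.surjective g
    obtain ⟨⟨x', i'⟩, hx'⟩ := ψ.surjective (s * ψ (x, i))
    have e1 : f0 (ψ (x, i)) = h (x, i) := by
      change h (ψ.symm (ψ (x, i))) = _
      rw [Equiv.symm_apply_apply]
    have e2 : f0 (s * ψ (x, i)) = h (x', i') := by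
      change h (ψ.symm (s * ψ (x, i))) = _
      rw [← hx', Equiv.symm_apply_apply]
    refine ⟨_, hh (x', i'), (x' * x⁻¹, h (x, i) * x⁻¹), ⟨⟨i, i', ?_⟩, hh (x, i)⟩, ?_⟩
    · rw [hψa, hψa] at hx'
      have h3 : a i' * θ x' = s * (a i * θ x) := hx'
      change θ (x' * x⁻¹) = (a i')⁻¹ * s * a i
      rw [map_mul, map_inv]
      have h4 : θ x' = (a i')⁻¹ * (s * (a i * θ x)) := by rw [← h3, inv_mul_cancel_left]
      rw [h4]
      group
    · change h (x', i') * x'⁻¹ * (x' * x⁻¹) * (h (x, i) * x⁻¹)⁻¹ =
        f0 (s * ψ (x, i)) * (f0 (ψ (x, i)))⁻¹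
      rw [e1, e2]
      group
  · intro s
    have hfin : (Set.image2 (fun (p : Bool × Bool) (y : H × H) =>
        a p.1 * θ (y.1⁻¹ * s * y.2) * (a p.2)⁻¹) Set.univ (T ×ˢ T)).Finite :=
      Set.finite_univ.image2 _ (hT.prod hT)
    apply hfin.subset
    rintro _ ⟨y, rfl⟩
    obtain ⟨⟨x, i⟩, rfl⟩ := h.surjective y
    obtain ⟨⟨x', i'⟩, hx'⟩ := h.surjective (s * h (x, i))
    have e1 : f0.symm (h (x, i)) = ψ (x, i) := by
      change ψ (h.symm (h (x, i))) = _
      rw [Equiv.symm_apply_apply]
    have e2 : f0.symm (s * h (x, i)) = ψ (x', i') := by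
      change ψ (h.symm (s * h (x, i))) = _
      rw [← hx', Equiv.symm_apply_apply]
    refine ⟨(i', i), Set.mem_univ _, (h (x', i') * x'⁻¹, h (x, i) * x⁻¹),
      ⟨hh (x', i'), hh (x, i)⟩, ?_⟩
    change a i' * θ ((h (x', i') * x'⁻¹)⁻¹ * s * (h (x, i) * x⁻¹)) * (a i)⁻¹ =
      f0.symm (s * h (x, i)) * (f0.symm (h (x, i)))⁻¹
    rw [e1, e2, hψa, hψa, hx']
    have h3 : (s * h (x, i) * x'⁻¹)⁻¹ * s * (h (x, i) * x⁻¹) = x' * x⁻¹ := by group
    rw [h3, map_mul, map_inv]
    group

end

/-! ### two disjoint copies of a free group in itself -/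

section
variable {α : Type} [DecidableEq α]

/-- multiply by the letter `j`, unless the word starts with its inverse -/
def push (j : α) (g : FreeGroup α) : FreeGroup α :=
  if g.toWord.head? = some (j, false) then g else FreeGroup.of j * g

theorem push_pos {j : α} {g : FreeGroup α} (h : g.toWord.head? = some (j, false)) :
    push j g = g := if_pos h

theorem push_neg {j : α} {g : FreeGroup α} (h : g.toWord.head? ≠ some (j, false)) :
    (push j g).toWord = (j, true) :: g.toWord := by
  rw [push, if_neg h, FreeGroup.toWord_mul, FreeGroup.toWord_of, List.singleton_append,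
    FreeGroup.reduce.cons, FreeGroup.reduce_toWord]
  rcases hw : g.toWord with _ | ⟨hd, tl⟩
  · rfl
  · change (if j = hd.1 ∧ true = !hd.2 then tl else (j, true) :: hd :: tl) = _
    rw [if_neg]
    rintro ⟨h1, h2⟩
    apply h
    rw [hw, List.head?_cons]
    congr 1
    refine Prod.ext h1.symm ?_
    change hd.2 = false
    revert h2
    cases hd.2 <;> simp

theorem push_inj (j : α) : Function.Injective (push j) := by
  intro g g' h
  by_cases h1 : g.toWord.head? = some (j, false) <;> by_cases h2 : g'.toWord.head? = some (j, false)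
  · rwa [push_pos h1, push_pos h2] at h
  · exfalso
    rw [push_pos h1] at h
    rw [h, push_neg h2, List.head?_cons] at h1
    simp at h1
  · exfalso
    rw [push_pos h2] at h
    rw [← h, push_neg h1, List.head?_cons] at h2
    simp at h2
  · have h3 := congrArg FreeGroup.toWord h
    rw [push_neg h1, push_neg h2] at h3
    exact FreeGroup.toWord_injective (List.cons_injective h3)

theorem push_head (j : α) (g : FreeGroup α) :
    ∃ b : Bool, (push j g).toWord.head? = some (j, b) := by
  by_cases h1 : g.toWord.head? = some (j, false)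
  · exact ⟨false, by rw [push_pos h1, h1]⟩
  · exact ⟨true, by rw [push_neg h1, List.head?_cons]⟩

theorem push_close (j : α) (g : FreeGroup α) :
    push j g * g⁻¹ ∈ ({1, FreeGroup.of j} : Set (FreeGroup α)) := by
  rw [push]
  split
  · left
    exact mul_inv_cancel g
  · right
    rw [mul_inv_cancel_right]
    rfl

/-- a bijection of two copies of the free group with the free group, at bounded distance -/
theorem exists_double (j k : α) (hjk : j ≠ k) : ∃ h : FreeGroup α × Bool ≃ FreeGroup α,
    ∀ p, h p * p.1⁻¹ ∈ ({1, FreeGroup.of j, FreeGroup.of k} : Set (FreeGroup α)) := by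
  let u : FreeGroup α × Bool → FreeGroup α := fun p => push (cond p.2 j k) p.1
  have hu : Function.Injective u := by
    rintro ⟨g, b⟩ ⟨g', b'⟩ h
    have h0 : push (cond b j k) g = push (cond b' j k) g' := h
    obtain ⟨c, hc⟩ := push_head (cond b j k) g
    obtain ⟨c', hc'⟩ := push_head (cond b' j k) g'
    rw [h0, hc'] at hc
    have h1 : cond b' j k = cond b j k := congrArg Prod.fst (Option.some_injective _ hc)
    have h2 : b = b' := by
      cases b <;> cases b' <;> first | rfl | exact absurd h1 hjk | exact absurd h1.symm hjk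
    subst h2
    exact Prod.ext (push_inj _ h0) rfl
  let v : FreeGroup α → FreeGroup α × Bool := fun g => (g, false)
  have hv : Function.Injective v := fun x y h => congrArg Prod.fst h
  obtain ⟨h, hb, hR⟩ := Function.Embedding.schroeder_bernstein_of_rel hu hv
    (fun p g => g * p.1⁻¹ ∈ ({1, FreeGroup.of j, FreeGroup.of k} : Set (FreeGroup α))) (by
      rintro ⟨g, b⟩
      have h1 : push (cond b j k) g * g⁻¹ ∈
        ({1, FreeGroup.of (cond b j k)} : Set (FreeGroup α)) := push_close _ g
      rcases h1 with h1 | h1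
      · exact Or.inl h1
      · cases b
        · exact Or.inr (Or.inr h1)
        · exact Or.inr (Or.inl h1)) (by
      intro g
      exact Or.inl (mul_inv_cancel g))
  exact ⟨Equiv.ofBijective h hb, hR⟩

end

/-! ### the subgroup of index two -/

/-- the free group of rank three -/
abbrev G3 : Type := FreeGroup (Fin 3)

/-- the free group of rank two -/
abbrev G2 : Type := FreeGroup (Fin 2)

/-- the action of the first generator -/
def permA : Equiv.Perm (G3 × Bool) where
  toFun p := match p with
    | (x, false) => (x, true)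
    | (x, true) => (FreeGroup.of 0 * x, false)
  invFun p := match p with
    | (x, true) => (x, false)
    | (x, false) => ((FreeGroup.of 0)⁻¹ * x, true)
  left_inv := by
    rintro ⟨x, _ | _⟩
    · rfl
    · change (((FreeGroup.of 0)⁻¹ * (FreeGroup.of 0 * x), true) : G3 × Bool) = (x, true)
      rw [inv_mul_cancel_left]
  right_inv := by
    rintro ⟨x, _ | _⟩
    · change ((FreeGroup.of 0 * ((FreeGroup.of 0)⁻¹ * x), false) : G3 × Bool) = (x, false)
      rw [mul_inv_cancel_left]
    · rfl

/-- the action of the second generator -/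
def permB : Equiv.Perm (G3 × Bool) where
  toFun p := match p with
    | (x, false) => (FreeGroup.of 1 * x, false)
    | (x, true) => (FreeGroup.of 2 * x, true)
  invFun p := match p with
    | (x, false) => ((FreeGroup.of 1)⁻¹ * x, false)
    | (x, true) => ((FreeGroup.of 2)⁻¹ * x, true)
  left_inv := by
    rintro ⟨x, _ | _⟩
    · change (((FreeGroup.of 1)⁻¹ * (FreeGroup.of 1 * x), false) : G3 × Bool) = (x, false)
      rw [inv_mul_cancel_left]
    · change (((FreeGroup.of 2)⁻¹ * (FreeGroup.of 2 * x), true) : G3 × Bool) = (x, true)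
      rw [inv_mul_cancel_left]
  right_inv := by
    rintro ⟨x, _ | _⟩
    · change ((FreeGroup.of 1 * ((FreeGroup.of 1)⁻¹ * x), false) : G3 × Bool) = (x, false)
      rw [mul_inv_cancel_left]
    · change ((FreeGroup.of 2 * ((FreeGroup.of 2)⁻¹ * x), true) : G3 × Bool) = (x, true)
      rw [mul_inv_cancel_left]

/-- the action of the free group of rank two -/
def rho : G2 →* Equiv.Perm (G3 × Bool) := FreeGroup.lift ![permA, permB]

/-- the embedding of the free group of rank three -/
def theta : G3 →* G2 := FreeGroup.lift ![FreeGroup.of 0 * FreeGroup.of 0, FreeGroup.of 1,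
  (FreeGroup.of 0)⁻¹ * FreeGroup.of 1 * FreeGroup.of 0]

/-- the transversal -/
def tra (b : Bool) : G2 := cond b (FreeGroup.of 0) 1

/-- the inverse map -/
def psi (p : G3 × Bool) : G2 := tra p.2 * theta p.1

theorem rho_0 : rho (FreeGroup.of 0) = permA := by
  rw [rho, FreeGroup.lift_apply_of]
  rfl

theorem rho_1 : rho (FreeGroup.of 1) = permB := by
  rw [rho, FreeGroup.lift_apply_of]
  rfl

theorem theta_0 : theta (FreeGroup.of 0) = FreeGroup.of 0 * FreeGroup.of 0 := by
  rw [theta, FreeGroup.lift_apply_of]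
  rfl

theorem theta_1 : theta (FreeGroup.of 1) = FreeGroup.of 1 := by
  rw [theta, FreeGroup.lift_apply_of]
  rfl

theorem theta_2 : theta (FreeGroup.of 2) = (FreeGroup.of 0)⁻¹ * FreeGroup.of 1 * FreeGroup.of 0 := by
  rw [theta, FreeGroup.lift_apply_of]
  rfl

theorem psi_rho (g : G2) : ∀ p, psi (rho g p) = g * psi p := by
  induction g using FreeGroup.induction_on with
  | C1 =>
    intro p
    rw [map_one, Equiv.Perm.one_apply, one_mul]
  | of x =>
    rintro ⟨y, b⟩
    change psi (rho (FreeGroup.of x) (y, b)) = FreeGroup.of x * psi (y, b)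
    fin_cases x
    · change psi (rho (FreeGroup.of 0) (y, b)) = FreeGroup.of 0 * psi (y, b)
      rw [rho_0]
      cases b
      · change FreeGroup.of 0 * theta y = FreeGroup.of 0 * (1 * theta y)
        rw [one_mul]
      · change 1 * theta (FreeGroup.of 0 * y) = FreeGroup.of 0 * (FreeGroup.of 0 * theta y)
        rw [map_mul, theta_0, one_mul, mul_assoc]
    · change psi (rho (FreeGroup.of 1) (y, b)) = FreeGroup.of 1 * psi (y, b)
      rw [rho_1]
      cases b
      · change 1 * theta (FreeGroup.of 1 * y) = FreeGroup.of 1 * (1 * theta y)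
        rw [map_mul, theta_1, one_mul, one_mul]
      · change FreeGroup.of 0 * theta (FreeGroup.of 2 * y) = FreeGroup.of 1 * (FreeGroup.of 0 * theta y)
        rw [map_mul, theta_2]
        group
  | inv_of x hx =>
    intro p
    change psi (rho (FreeGroup.of x)⁻¹ p) = (FreeGroup.of x)⁻¹ * psi p
    have h := hx (rho (FreeGroup.of x)⁻¹ p)
    have h2 : rho (FreeGroup.of x) (rho (FreeGroup.of x)⁻¹ p) = p := by
      rw [← Equiv.Perm.mul_apply, ← map_mul, mul_inv_cancel, map_one, Equiv.Perm.one_apply]
    have h3 : psi (rho (FreeGroup.of x) (rho (FreeGroup.of x)⁻¹ p)) =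
      FreeGroup.of x * psi (rho (FreeGroup.of x)⁻¹ p) := h
    rw [h2] at h3
    rw [h3, inv_mul_cancel_left]
  | mul a b ha hb =>
    intro p
    rw [map_mul, Equiv.Perm.mul_apply, ha, hb, mul_assoc]

theorem rho_theta (w : G3) : ∀ x, rho (theta w) (x, false) = (w * x, false) := by
  induction w using FreeGroup.induction_on with
  | C1 =>
    intro x
    rw [map_one, map_one, Equiv.Perm.one_apply, one_mul]
  | of i =>
    intro x
    change rho (theta (FreeGroup.of i)) (x, false) = (FreeGroup.of i * x, false)
    fin_cases i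
    · change rho (theta (FreeGroup.of 0)) (x, false) = (FreeGroup.of 0 * x, false)
      rw [theta_0, map_mul, Equiv.Perm.mul_apply, rho_0]
      rfl
    · change rho (theta (FreeGroup.of 1)) (x, false) = (FreeGroup.of 1 * x, false)
      rw [theta_1, rho_1]
      rfl
    · change rho (theta (FreeGroup.of 2)) (x, false) = (FreeGroup.of 2 * x, false)
      rw [theta_2, map_mul, map_mul, map_inv, Equiv.Perm.mul_apply, Equiv.Perm.mul_apply, rho_0,
        rho_1]
      rfl
  | inv_of i hi =>
    intro x
    change rho (theta (FreeGroup.of i)⁻¹) (x, false) = ((FreeGroup.of i)⁻¹ * x, false)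
    have h : rho (theta (FreeGroup.of i)) ((FreeGroup.of i)⁻¹ * x, false) =
      (FreeGroup.of i * ((FreeGroup.of i)⁻¹ * x), false) := hi _
    rw [mul_inv_cancel_left] at h
    rw [map_inv, map_inv, Equiv.Perm.inv_def, Equiv.symm_apply_eq, h]
  | mul a b ha hb =>
    intro x
    rw [map_mul, map_mul, Equiv.Perm.mul_apply, hb, ha, mul_assoc]

theorem psi_bij : Function.Bijective psi := by
  constructor
  · have h : ∀ p : G3 × Bool, rho (psi p) (1, false) = p := by
      rintro ⟨x, b⟩
      rw [psi, map_mul, Equiv.Perm.mul_apply, rho_theta, mul_one]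
      cases b
      · change rho 1 (x, false) = _
        rw [map_one, Equiv.Perm.one_apply]
      · change rho (FreeGroup.of 0) (x, false) = _
        rw [rho_0]
        rfl
    intro p q hpq
    rw [← h p, ← h q, hpq]
  · intro g
    refine ⟨rho g (1, false), ?_⟩
    rw [psi_rho]
    change g * (1 * theta 1) = g
    rw [map_one, mul_one, mul_one]

/-- the free groups of ranks two and three -/
theorem free_two_three : ∃ f : G2 ≃ G3, CE f := by
  obtain ⟨h, hh⟩ := exists_double (α := Fin 3) 0 1 (by decide)
  exact glue theta tra psi_bij h _ (by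
    exact ((Set.finite_singleton _).insert _).insert _) hh

end Pool.Agent.Hhelper49.Qiv
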