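import Mathlib
import Pool.Agent.Hhelper49.Qiv.Geo1

/-!
# Geo3: free products, letter by letter
-/

set_option linter.unusedSectionVars false

namespace Pool.Agent.Hhelper49.Qiv

open Monoid Monoid.CoprodI

section
variable {ι : Type} {M N : ι → Type} [∀ i, Group (M i)] [∀ i, Group (N i)]

/-- apply a bijection to the letters of a reduced word -/
def wmap (f : ∀ i, M i ≃ N i) (hf : ∀ i, f i 1 = 1) (w : Word M) : Word N where
  toList := w.toList.map fun l => ⟨l.1, f l.1 l.2⟩
  ne_one := by
    intro l hl
    rw [List.mem_map] at hl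
    obtain ⟨l', hl', rfl⟩ := hl
    intro h
    apply w.ne_one l' hl'
    apply (f l'.1).injective
    rw [hf]
    exact h
  chain_ne := by
    rw [List.isChain_map]
    exact w.chain_ne

theorem wmap_empty (f : ∀ i, M i ≃ N i) (hf : ∀ i, f i 1 = 1) :
    wmap f hf Word.empty = Word.empty := rfl

theorem wmap_fst (f : ∀ i, M i ≃ N i) (hf : ∀ i, f i 1 = 1) (w : Word M) :
    (wmap f hf w).fstIdx = w.fstIdx := by
  rw [Word.fstIdx, Word.fstIdx]
  change ((w.toList.map fun l => (⟨l.1, f l.1 l.2⟩ : Σ i, N i)).head?).map Sigma.fst = _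
  rw [List.head?_map, Option.map_map]
  rfl

theorem symm_one (f : ∀ i, M i ≃ N i) (hf : ∀ i, f i 1 = 1) (i : ι) : (f i).symm 1 = 1 := by
  rw [Equiv.symm_apply_eq, hf]

theorem wmap_symm (f : ∀ i, M i ≃ N i) (hf : ∀ i, f i 1 = 1) (w : Word M) :
    wmap (fun i => (f i).symm) (symm_one f hf) (wmap f hf w) = w := by
  apply Word.ext
  change List.map _ (List.map _ w.toList) = w.toList
  rw [List.map_map]
  have h : ((fun l : (Σ i, N i) => (⟨l.1, (f l.1).symm l.2⟩ : Σ i, M i)) ∘
      fun l : (Σ i, M i) => (⟨l.1, f l.1 l.2⟩ : Σ i, N i)) = id := by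
    funext l
    rcases l with ⟨i, x⟩
    change (⟨i, (f i).symm (f i x)⟩ : Σ i, M i) = ⟨i, x⟩
    rw [Equiv.symm_apply_apply]
  rw [h, List.map_id]

/-- the bijection of the sets of reduced words -/
def wequiv (f : ∀ i, M i ≃ N i) (hf : ∀ i, f i 1 = 1) : Word M ≃ Word N where
  toFun := wmap f hf
  invFun := wmap (fun i => (f i).symm) (symm_one f hf)
  left_inv := wmap_symm f hf
  right_inv := wmap_symm (fun i => (f i).symm) (symm_one f hf)

variable [DecidableEq ι] [∀ i, DecidableEq (M i)] [∀ i, DecidableEq (N i)]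

theorem wmap_rcons (f : ∀ i, M i ≃ N i) (hf : ∀ i, f i 1 = 1) {i : ι} (p : Word.Pair M i) :
    wmap f hf (Word.rcons p) =
      Word.rcons ⟨f i p.head, wmap f hf p.tail, by rw [wmap_fst]; exact p.fstIdx_ne⟩ := by
  by_cases h : p.head = 1
  · have h' : f i p.head = 1 := by rw [h, hf]
    rw [Word.rcons, dif_pos h, Word.rcons, dif_pos h']
  · have h' : f i p.head ≠ 1 := by
      intro h2
      apply h
      apply (f i).injective
      rw [h2, hf]
    rw [Word.rcons, dif_neg h, Word.rcons, dif_neg h']
    rfl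

/-- the bijection of the free products -/
def cequiv (f : ∀ i, M i ≃ N i) (hf : ∀ i, f i 1 = 1) : CoprodI M ≃ CoprodI N :=
  Word.equiv.trans ((wequiv f hf).trans Word.equiv.symm)

theorem cequiv_apply (f : ∀ i, M i ≃ N i) (hf : ∀ i, f i 1 = 1) (x : CoprodI M) :
    cequiv f hf x = (wmap f hf (x • Word.empty)).prod := rfl

theorem cequiv_of_mul (f : ∀ i, M i ≃ N i) (hf : ∀ i, f i 1 = 1) {i : ι} (s : M i)
    (x : CoprodI M) : ∃ h : M i,
    cequiv f hf (of s * x) * (cequiv f hf x)⁻¹ = of (f i (s * h) * (f i h)⁻¹) := by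
  obtain ⟨w, hw⟩ : ∃ w : Word M, w = x • Word.empty := ⟨_, rfl⟩
  refine ⟨(Word.equivPair i w).head, ?_⟩
  have h1 : w = Word.rcons (Word.equivPair i w) :=
    ((Word.equivPair i).symm_apply_apply w).symm
  have h2 : (of s * x) • Word.empty =
      Word.rcons { Word.equivPair i w with head := s * (Word.equivPair i w).head } := by
    rw [mul_smul, ← hw]
    rfl
  rw [cequiv_apply, cequiv_apply, h2, ← hw]
  have h3 : (wmap f hf w).prod =
      of (f i (Word.equivPair i w).head) * (wmap f hf (Word.equivPair i w).tail).prod := by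
    conv_lhs => rw [h1]
    rw [wmap_rcons, Word.prod_rcons]
  rw [h3, wmap_rcons, Word.prod_rcons]
  change of (f i (s * (Word.equivPair i w).head)) * (wmap f hf (Word.equivPair i w).tail).prod *
    (of (f i (Word.equivPair i w).head) * (wmap f hf (Word.equivPair i w).tail).prod)⁻¹ = _
  rw [(of : N i →* CoprodI N).map_mul, (of : N i →* CoprodI N).map_inv, mul_inv_rev, mul_assoc,
    mul_inv_cancel_left]

theorem cequiv_ctrl (f : ∀ i, M i ≃ N i) (hf : ∀ i, f i 1 = 1) (h : ∀ i, Ctrl (f i)) :
    Ctrl (cequiv f hf) := by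
  rw [ctrl_iff, eq_top_iff]
  intro x hx
  clear hx
  induction x using CoprodI.induction_on with
  | one => exact Subgroup.one_mem _
  | of i s =>
    change (Set.range fun g => cequiv f hf (of s * g) * (cequiv f hf g)⁻¹).Finite
    apply ((h i s).image (fun y => (of y : CoprodI N))).subset
    rintro _ ⟨g, rfl⟩
    obtain ⟨t, ht⟩ := cequiv_of_mul f hf s g
    exact ⟨_, ⟨t, rfl⟩, ht.symm⟩
  | mul x y hx hy => exact Subgroup.mul_mem _ hx hy

theorem cequiv_CE (f : ∀ i, M i ≃ N i) (h : ∀ i, CE (f i)) :
    CE (cequiv f fun i => (h i).one) := by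
  refine ⟨?_, cequiv_ctrl _ _ fun i => (h i).fw, ?_⟩
  · rw [cequiv_apply, one_smul]
    rfl
  · exact cequiv_ctrl (fun i => (f i).symm) (symm_one f fun i => (h i).one) fun i => (h i).bw

end

/-! ### the binary free product -/

/-- the family of two groups -/
def Fm (A B : Type) : Bool → Type
  | false => A
  | true => B

instance Fm.group (A B : Type) [Group A] [Group B] : ∀ i, Group (Fm A B i)
  | false => inferInstanceAs (Group A)
  | true => inferInstanceAs (Group B)

section
variable {A B A' B' : Type} [Group A] [Group B] [Group A'] [Group B']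

/-- the two homomorphisms -/
def Fm.hom {K : Type} [Group K] (f : A →* K) (g : B →* K) : ∀ i, Fm A B i →* K
  | false => f
  | true => g

/-- the binary free product as a free product of a family -/
def toFm : Coprod A B →* CoprodI (Fm A B) :=
  Coprod.lift (of (M := Fm A B) (i := false)) (of (M := Fm A B) (i := true))

/-- the inverse -/
def ofFm : CoprodI (Fm A B) →* Coprod A B :=
  CoprodI.lift (Fm.hom Coprod.inl Coprod.inr)

/-- the isomorphism -/
def fmEquiv (A B : Type) [Group A] [Group B] : Coprod A B ≃* CoprodI (Fm A B) :=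
  MonoidHom.toMulEquiv toFm ofFm
    (by
      apply Coprod.hom_ext
      · ext x
        change ofFm (toFm (Coprod.inl x)) = Coprod.inl x
        rw [toFm, Coprod.lift_apply_inl]
        exact CoprodI.lift_of (Fm.hom (Coprod.inl : A →* Coprod A B) Coprod.inr) (i := false) x
      · ext x
        change ofFm (toFm (Coprod.inr x)) = Coprod.inr x
        rw [toFm, Coprod.lift_apply_inr]
        exact CoprodI.lift_of (Fm.hom (Coprod.inl : A →* Coprod A B) Coprod.inr) (i := true) x)
    (by
      apply CoprodI.ext_hom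
      rintro (_ | _)
      · ext x
        change toFm (ofFm (of (M := Fm A B) (i := false) x)) = of (M := Fm A B) (i := false) x
        rw [ofFm, CoprodI.lift_of]
        change toFm (Coprod.inl x) = _
        rw [toFm, Coprod.lift_apply_inl]
        rfl
      · ext x
        change toFm (ofFm (of (M := Fm A B) (i := true) x)) = of (M := Fm A B) (i := true) x
        rw [ofFm, CoprodI.lift_of]
        change toFm (Coprod.inr x) = _
        rw [toFm, Coprod.lift_apply_inr]
        rfl)

/-- the family of the two bijections -/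
def fmMap (f : A ≃ A') (g : B ≃ B') : ∀ i, Fm A B i ≃ Fm A' B' i
  | false => f
  | true => g

/-- free products of controlled bijections -/
theorem CE.coprod {f : A ≃ A'} {g : B ≃ B'} (hf : CE f) (hg : CE g) :
    ∃ F : Coprod A B ≃ Coprod A' B', CE F := by
  classical
  have h : ∀ i, CE (fmMap f g i) := by
    rintro (_ | _)
    · exact hf
    · exact hg
  exact ⟨_, ((CE.ofMulEquiv (fmEquiv A B)).trans (cequiv_CE _ h)).trans
    (CE.ofMulEquiv (fmEquiv A' B').symm)⟩

end

end Pool.Agent.Hhelper49.Qiv
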