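import Mathlib
import Pool.Agent.Hhelper49.Qiv.Geo1

/-!
# Geo4: word metrics, quasi-isometries, bi-Lipschitz equivalences
-/

namespace Pool.Agent.Hhelper49.Qiv

/-- the word length with respect to `S`: the least length of a word in the elements of `S` and their
inverses which represents `g` -/
noncomputable def wlen {G : Type} [Group G] (S : Set G) (g : G) : ℕ :=
  sInf {n : ℕ | ∃ l : List G, l.length = n ∧ (∀ x ∈ l, x ∈ S ∨ x⁻¹ ∈ S) ∧ l.prod = g}

/-- the (left invariant) word metric -/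
noncomputable def wdist {G : Type} [Group G] (S : Set G) (x y : G) : ℕ := wlen S (x⁻¹ * y)

/-- a finite generating set -/
def FinGen {G : Type} [Group G] (S : Set G) : Prop := S.Finite ∧ Subgroup.closure S = ⊤

/-- `G` and `H` (finitely generated) with word metrics are quasi-isometric -/
def QuasiIsometric (G H : Type) [Group G] [Group H] : Prop :=
  ∃ (S : Set G) (T : Set H), FinGen S ∧ FinGen T ∧ ∃ (f : G → H) (C : ℕ),
    (∀ x y, wdist T (f x) (f y) ≤ C * wdist S x y + C) ∧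
    (∀ x y, wdist S x y ≤ C * wdist T (f x) (f y) + C) ∧
    ∀ z, ∃ x, wdist T (f x) z ≤ C

/-- `G` and `H` (finitely generated) with word metrics are bi-Lipschitz equivalent -/
def BiLipschitz (G H : Type) [Group G] [Group H] : Prop :=
  ∃ (S : Set G) (T : Set H), FinGen S ∧ FinGen T ∧ ∃ (f : G ≃ H) (C : ℕ),
    (∀ x y, wdist T (f x) (f y) ≤ C * wdist S x y) ∧
    (∀ x y, wdist S x y ≤ C * wdist T (f x) (f y))

section
variable {G H : Type} [Group G] [Group H]

theorem wlen_le (S : Set G) (l : List G) (hl : ∀ x ∈ l, x ∈ S ∨ x⁻¹ ∈ S) :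
    wlen S l.prod ≤ l.length := Nat.sInf_le ⟨l, rfl, hl, rfl⟩

theorem wlen_one (S : Set G) : wlen S (1 : G) = 0 := by
  have h := wlen_le S ([] : List G) (by simp)
  simpa using h

theorem wlen_spec {S : Set G} (hS : Subgroup.closure S = ⊤) (g : G) :
    ∃ l : List G, l.length = wlen S g ∧ (∀ x ∈ l, x ∈ S ∨ x⁻¹ ∈ S) ∧ l.prod = g := by
  have hne : {n : ℕ | ∃ l : List G, l.length = n ∧ (∀ x ∈ l, x ∈ S ∨ x⁻¹ ∈ S) ∧
      l.prod = g}.Nonempty := by
    have hg : g ∈ Subgroup.closure S := by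
      rw [hS]
      exact Subgroup.mem_top g
    rw [← Subgroup.mem_toSubmonoid, Subgroup.closure_toSubmonoid] at hg
    obtain ⟨l, hl, hp⟩ := Submonoid.exists_list_of_mem_closure hg
    exact ⟨l.length, l, rfl, hl, hp⟩
  exact Nat.sInf_mem hne

theorem wlen_mul {S : Set G} (hS : Subgroup.closure S = ⊤) (g h : G) :
    wlen S (g * h) ≤ wlen S g + wlen S h := by
  obtain ⟨l, h1, h2, h3⟩ := wlen_spec hS g
  obtain ⟨l', h1', h2', h3'⟩ := wlen_spec hS h
  have h4 := wlen_le S (l ++ l') (by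
    intro x hx
    rw [List.mem_append] at hx
    rcases hx with hx | hx
    · exact h2 x hx
    · exact h2' x hx)
  rwa [List.prod_append, h3, h3', List.length_append, h1, h1'] at h4

theorem ctrl_bound {f : G → H} (hf : Ctrl f) {S : Set G} {T : Set H} (hS : FinGen S)
    (hT : FinGen T) : ∃ C : ℕ, ∀ s g, wlen T (f (s * g) * (f g)⁻¹) ≤ C * wlen S s := by
  have hS' : {x : G | x ∈ S ∨ x⁻¹ ∈ S}.Finite := by
    have h1 : {x : G | x⁻¹ ∈ S}.Finite := hS.1.preimage (inv_injective.injOn)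
    exact hS.1.union h1
  have hX : (⋃ x ∈ {x : G | x ∈ S ∨ x⁻¹ ∈ S}, Set.range fun g => f (x * g) * (f g)⁻¹).Finite :=
    hS'.biUnion fun x _ => hf x
  obtain ⟨C, hC⟩ := (hX.image (wlen T)).bddAbove
  have hC' : ∀ x, (x ∈ S ∨ x⁻¹ ∈ S) → ∀ g, wlen T (f (x * g) * (f g)⁻¹) ≤ C := by
    intro x hx g
    apply hC
    refine ⟨_, Set.mem_biUnion (x := x) hx ⟨g, rfl⟩, rfl⟩
  refine ⟨C, ?_⟩
  have key : ∀ l : List G, (∀ x ∈ l, x ∈ S ∨ x⁻¹ ∈ S) → ∀ g,
      wlen T (f (l.prod * g) * (f g)⁻¹) ≤ C * l.length := by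
    intro l
    induction l with
    | nil =>
      intro _ g
      rw [List.prod_nil, one_mul, mul_inv_cancel, wlen_one]
      exact Nat.zero_le _
    | cons x l ih =>
      intro hl g
      have e : f ((x :: l).prod * g) * (f g)⁻¹ =
          (f (x * (l.prod * g)) * (f (l.prod * g))⁻¹) * (f (l.prod * g) * (f g)⁻¹) := by
        rw [List.prod_cons, mul_assoc]
        group
      rw [e, List.length_cons, mul_add, mul_one, add_comm]
      refine (wlen_mul hT.2 _ _).trans (add_le_add (hC' x (hl x List.mem_cons_self) _)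
        (ih (fun y hy => hl y (List.mem_cons_of_mem _ hy)) g))
  intro s g
  obtain ⟨l, h1, h2, h3⟩ := wlen_spec hS.2 s
  rw [← h1, ← h3]
  exact key l h2 g

/-- controlled bijections give bi-Lipschitz equivalences -/
theorem CE.biLipschitz {f : G ≃ H} (h : CE f) {S : Set G} {T : Set H} (hS : FinGen S)
    (hT : FinGen T) : BiLipschitz G H := by
  obtain ⟨C, hC⟩ := ctrl_bound h.fw hS hT
  obtain ⟨D, hD⟩ := ctrl_bound h.bw hT hS
  let E : G ≃ H := (Equiv.inv G).trans (f.trans (Equiv.inv H))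
  have hE : ∀ x, E x = (f x⁻¹)⁻¹ := fun x => rfl
  refine ⟨S, T, hS, hT, E, max C D, ?_, ?_⟩
  · intro x y
    have h1 := hC (x⁻¹ * y) y⁻¹
    rw [mul_inv_cancel_right] at h1
    have h2 : (E x)⁻¹ * E y = f x⁻¹ * (f y⁻¹)⁻¹ := by rw [hE, hE, inv_inv]
    rw [wdist, h2]
    exact h1.trans (Nat.mul_le_mul_right _ (le_max_left _ _))
  · intro x y
    have h1 := hD ((E x)⁻¹ * E y) (E y)⁻¹
    have h2 : ∀ z, f.symm (E z)⁻¹ = z⁻¹ := by
      intro z
      rw [hE, inv_inv, Equiv.symm_apply_apply]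
    rw [mul_inv_cancel_right, h2, h2, inv_inv] at h1
    exact h1.trans (Nat.mul_le_mul_right _ (le_max_right _ _))

theorem BiLipschitz.quasi (h : BiLipschitz G H) : QuasiIsometric G H := by
  obtain ⟨S, T, hS, hT, f, C, h1, h2⟩ := h
  refine ⟨S, T, hS, hT, f, C, fun x y => (h1 x y).trans (Nat.le_add_right _ _),
    fun x y => (h2 x y).trans (Nat.le_add_right _ _), fun z => ⟨f.symm z, ?_⟩⟩
  rw [Equiv.apply_symm_apply, wdist, inv_mul_cancel, wlen_one]
  exact Nat.zero_le _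

end

end Pool.Agent.Hhelper49.Qiv
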