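import Pool.Agent.Hhelper49.Qiv.Alg3
import Pool.Agent.Hhelper49.Qiv.Geo2
import Pool.Agent.Hhelper49.Qiv.Geo3
import Pool.Agent.Hhelper49.Qiv.Geo4
import Pool.Agent.Hhelper49.Srd.FGen
import Pool.Agent.SFP.Fin4

/-!
# Fin: Serre's question and quasi-isometries
-/

namespace Pool.Agent.Hhelper49.Qiv

open Pool.Agent.Hhelper49.Srr Pool.Agent.Hhelper49.Srf Pool.Agent.SFP

theorem finGen_of_typeFP (G : Type) [Group G] (h : TypeFP G) : ∃ S : Set G, FinGen S := by
  have h1 := fg_of_typeFP G h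
  obtain ⟨S, hS⟩ := Group.fg_iff.1 h1
  exact ⟨S, hS.2, hS.1⟩

theorem biLip (G : Type) [Group G] (hG : TypeFP G) : BiLipschitz (G × KF 2) (G × KF 3) := by
  obtain ⟨f, hf⟩ := free_two_three
  obtain ⟨F, hF⟩ := CE.coprod (CE.refl (G := Multiplicative ℤ)) ((CE.refl (G := F2)).prod hf)
  have h : CE (Equiv.prodCongr (Equiv.refl G) F) := CE.refl.prod hF
  obtain ⟨S, hS⟩ := finGen_of_typeFP _ (fp_KF G 0 hG)
  obtain ⟨T, hT⟩ := finGen_of_typeFP _ (fp_KF G 1 hG)
  exact h.biLipschitz hS hT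

theorem fpres_KF (n : ℕ) (G : Type) [Group G] (h : Group.IsFinitelyPresented G) :
    Group.IsFinitelyPresented (G × KF n) := by
  have h1 : Group.IsFinitelyPresented (AA n) := prod_fpres _ _
  have h2 : Group.IsFinitelyPresented (KF n) := inferInstance
  exact prod_fpres _ _

/-- the pair -/
theorem pair_exists (G : Type) [Group G] (hG : TypeFP G) :
    ∃ (Γ Δ : Type) (_ : Group Γ) (_ : Group Δ) (i : G →* Δ) (r : Δ →* G),
      (∀ g, r (i g) = g) ∧ TypeFF Γ ∧ TypeFP Δ ∧ BiLipschitz Γ Δ ∧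
      (∀ m, FreeRes m Δ ↔ FreeRes m G) ∧
      (Group.IsFinitelyPresented G → Group.IsFinitelyPresented Γ ∧ Group.IsFinitelyPresented Δ) :=
  ⟨G × KF 2, G × KF 3, inferInstance, inferInstance, MonoidHom.inl G (KF 3),
    MonoidHom.fst G (KF 3), fun _ => rfl, ff_KF G hG, fp_KF G 1 hG, biLip G hG,
    fun m => freeRes_KF G m hG, fun h => ⟨fpres_KF 2 G h, fpres_KF 3 G h⟩⟩

/-- the realisation theorem -/
theorem pair_proj (G : Type) [Group G] (hG : TypeFP G) (P : Type) [AddCommGroup P]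
    [Module (MonoidAlgebra ℤ G) P] (h1 : Module.Finite (MonoidAlgebra ℤ G) P)
    (h2 : Module.Projective (MonoidAlgebra ℤ G) P) :
    ∃ (Γ Δ : Type) (_ : Group Γ) (_ : Group Δ) (i : G →* Δ) (r : Δ →* G),
      (∀ g, r (i g) = g) ∧ TypeFF Γ ∧ TypeFP Δ ∧ BiLipschitz Γ Δ ∧
      (∀ m, FreeRes m Δ ↔ StFree G (Fin m → P)) ∧
      (Group.IsFinitelyPresented G → Group.IsFinitelyPresented Γ ∧ Group.IsFinitelyPresented Δ) := by
  obtain ⟨R, _, i, r, h3, h4, h5, h6⟩ := point_fp2 G hG P h1 h2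
  obtain ⟨Γ, Δ, _, _, i', r', k1, k2, k3, k4, k5, k6⟩ := pair_exists R h4
  refine ⟨Γ, Δ, inferInstance, inferInstance, i'.comp i, r.comp r', ?_, k2, k3, k4, ?_, ?_⟩
  · intro g
    change r (r' (i' (i g))) = g
    rw [k1, h3]
  · intro m
    rw [k5, h5]
  · intro h
    exact k6 (h6 h)

theorem typeFF_of_freeRes (G : Type) [Group G] (h : FreeRes 1 G) : TypeFF G := (typeFF_iff G).2 h

/-- Serre's question for a class of groups and the invariance of type (FF) under an equivalence relation between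
quasi-isometry and bi-Lipschitz equivalence -/
theorem serre_of_bl (C : ∀ (G : Type) [Group G], Prop)
    (hC : ∀ (G : Type) [Group G], C G → C (G × KF 2) ∧ C (G × KF 3))
    (h : ∀ (G H : Type) [Group G] [Group H], C G → C H → TypeFP G → TypeFP H → BiLipschitz G H →
      TypeFF G → TypeFF H) (G : Type) [Group G] (hCG : C G) (hG : TypeFP G) : TypeFF G := by
  have hF := ff_KF G hG
  have h2 := typeFP_of_fp _ (fp_of_ff (ff_of_typeFF _ hF))
  have h3 := h (G × KF 2) (G × KF 3) (hC G hCG).1 (hC G hCG).2 h2 (fp_KF G 1 hG) (biLip G hG) hF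
  rw [typeFF_iff, freeRes_KF G 1 hG, ← typeFF_iff] at h3
  exact h3

end Pool.Agent.Hhelper49.Qiv
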